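import Pool.Agent.Lib_helper3.VuB.DC
import Pool.Agent.Vu.TOp

/-!
# Corollary (2.3), formula (0.1), two coins
-/

open Finset

namespace VuB

noncomputable section

variable {H : Type*} [Fintype H] [DecidableEq H]

lemma T_bridge (nb : H → Finset H) (pm : ℝ) : Pool.Agent.Vu.T pm nb = TT nb pm := rfl

lemma TT_bridge (nb : H → Finset H) (pm : ℝ) (j : ℕ) (w : H → ℝ) :
    Pool.Agent.Vu.TT pm nb j w = (TT nb pm)^[j] w := rfl

lemma ind_bridge (F : Finset H) : Pool.Agent.Vu.ind (↑F : Set H) = ind F := by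
  funext h
  unfold Pool.Agent.Vu.ind ind
  by_cases hh : h ∈ F <;> simp [hh]

lemma ind_eq_ite (X : Finset H) (x : H) : ind X x = if x ∈ X then (1 : ℝ) else 0 := by
  unfold ind
  by_cases hx : x ∈ X <;> simp [hx]

lemma sum_ind (X : Finset H) : ∑ x, ind X x = X.card := by
  simp only [ind_eq_ite]
  rw [Finset.sum_ite_mem]
  simp

lemma sum_ind_filter (F X : Finset H) :
    ∑ x ∈ F, ind X x = ((X.filter (fun y => y ∈ F)).card : ℝ) := by
  simp only [ind_eq_ite]
  rw [Finset.sum_boole]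
  congr 2
  ext y
  simp [and_comm]

/-- the quantity in the decoupling lemma -/
def Gam (R : ℕ) (nb : H → Finset H) (pm : ℝ) (X1 X2 : Finset H) : ℝ :=
  2 * pm * R * ∑ h, (TT nb pm)^[R] (ind X1) h * (TT nb pm)^[R] (ind X2) h

theorem gam_fib_le {R : ℕ} {nb : H → Finset H} {pm : ℝ}
    (hsym : ∀ h h', h ∈ nb h' → h' ∈ nb h) (hpm0 : 0 ≤ pm)
    {Dg : ℝ} (hDg : ∀ h, ((nb h).card : ℝ) ≤ Dg) {Del : ℝ} (hDel : 0 < Del) (hDD : Del ≤ Dg)
    {Th : ℝ} (hTh : pm * R * Dg ≤ Th)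
    {F : Finset H} (hF : ∀ x, x ∉ F → ((nb x).filter (fun y => y ∈ F)).card ≤ 1)
    {X1 X2 : Finset H} (hX1 : X1 ⊆ F) (hX2 : (X2.card : ℝ) ≤ 2 * Del)
    (hX2F : (X2.filter (fun y => y ∈ F)).card ≤ 1) :
    Gam R nb pm X1 X2 ≤ 2 * Th * (4 * Th + 1) * Real.exp (2 * Th) / Del := by
  have hsym' : ∀ x y, y ∈ nb x ↔ x ∈ nb y := fun x y => ⟨hsym y x, hsym x y⟩
  have hDg0 : 0 ≤ Dg := hDel.le.trans hDD
  set E : ℝ := (1 + pm * Dg) ^ R with hE
  have hbase : 0 ≤ pm * Dg := mul_nonneg hpm0 hDg0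
  have hE1 : 1 ≤ E := one_le_pow₀ (by linarith)
  have hTh0 : 0 ≤ Th := le_trans (by positivity) hTh
  have hEexp : E ≤ Real.exp Th := by
    have h1 : 1 + pm * Dg ≤ Real.exp (pm * Dg) := by
      have := Real.add_one_le_exp (pm * Dg); linarith
    calc E ≤ (Real.exp (pm * Dg)) ^ R := pow_le_pow_left₀ (by linarith) h1 R
      _ = Real.exp (R * (pm * Dg)) := by rw [← Real.exp_nat_mul]
      _ ≤ Real.exp Th := by
        apply Real.exp_le_exp.2
        calc (R : ℝ) * (pm * Dg) = pm * R * Dg := by ring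
          _ ≤ Th := hTh
  set u : H → ℝ := (TT nb pm)^[R] (ind F) with hu
  set w : H → ℝ := (TT nb pm)^[R] (ind X2) with hw
  have hw0 : ∀ h, 0 ≤ w h := TT_iter_nonneg hpm0 (ind_nonneg X2) R
  have hu0 : ∀ h, 0 ≤ u h := TT_iter_nonneg hpm0 (ind_nonneg F) R
  have hi1 : ∀ x, ind F x ≤ 1 := fun x => by unfold ind; split_ifs <;> norm_num
  -- bounds for u
  have hu1 : ∀ h, u h ≤ E := by
    intro h
    have := Pool.Agent.Vu.TT_le_sup (nb := nb) hpm0 hDg0 hDg zero_le_one hi1 R h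
    rw [TT_bridge] at this
    simpa using this
  have hu2 : ∀ h, h ∉ F → u h ≤ R * pm * E := by
    intro h hh
    have := Pool.Agent.Vu.TT_fib_le (nb := nb) (F := (↑F : Set H)) hpm0 hDg0 hDg
      (by
        intro x hx
        have h1 := hF x (by simpa using hx)
        refine le_trans (le_of_eq ?_) h1
        congr 1
        ext y
        simp) R h (by simpa using hh)
    rw [TT_bridge, ind_bridge] at this
    exact this
  have hsumind : ∑ x, ind X2 x = X2.card := sum_ind X2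
  have hsumindF : ∑ x ∈ F, ind X2 x ≤ 1 := by
    rw [sum_ind_filter]
    exact_mod_cast hX2F
  have hS : ∑ x, w x ≤ E * X2.card := by
    have := Pool.Agent.Vu.sum_TT_le (nb := nb) hpm0 hsym' hDg (ind_nonneg X2) R
    rw [TT_bridge, hsumind] at this
    exact this
  have hSF : ∑ x ∈ F, w x ≤ E * (1 + R * pm * X2.card) := by
    have h1 := Pool.Agent.Vu.sum_fib_TT_le (nb := nb) hpm0 hsym' hDg0 hDg (F := F)
      (by
        intro x hx
        refine le_trans (le_of_eq ?_) (hF x hx)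
        congr 1
        ext y
        simp) (ind_nonneg X2) R
    rw [TT_bridge, hsumind] at h1
    refine h1.trans (mul_le_mul_of_nonneg_left ?_ (by linarith))
    linarith
  -- product sum
  have hprod : ∑ h, u h * w h ≤ R * pm * E * ∑ h, w h + E * ∑ h ∈ F, w h := by
    have h1 : ∀ h, u h * w h ≤ R * pm * E * w h + (if h ∈ F then E * w h else 0) := by
      intro h
      by_cases hh : h ∈ F
      · rw [if_pos hh]
        have h2 := mul_le_mul_of_nonneg_right (hu1 h) (hw0 h)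
        have h3 : 0 ≤ R * pm * E * w h := by
          have := hw0 h
          positivity
        linarith
      · rw [if_neg hh, add_zero]
        exact mul_le_mul_of_nonneg_right (hu2 h hh) (hw0 h)
    refine (Finset.sum_le_sum fun h _ => h1 h).trans (le_of_eq ?_)
    rw [Finset.sum_add_distrib, Finset.mul_sum, Finset.sum_ite_mem, Finset.univ_inter,
      Finset.mul_sum]
  have hmono : ∑ h, (TT nb pm)^[R] (ind X1) h * w h ≤ ∑ h, u h * w h := by
    refine Finset.sum_le_sum fun h _ => mul_le_mul_of_nonneg_right ?_ (hw0 h)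
    exact TT_iter_mono hpm0 (ind_mono hX1) R h
  have hRD : R * pm * Del ≤ Th := by
    calc (R : ℝ) * pm * Del ≤ R * pm * Dg := mul_le_mul_of_nonneg_left hDD (by positivity)
      _ = pm * R * Dg := by ring
      _ ≤ Th := hTh
  have hRX : R * pm * X2.card ≤ 2 * Th := by
    calc (R : ℝ) * pm * X2.card ≤ R * pm * (2 * Del) :=
          mul_le_mul_of_nonneg_left hX2 (by positivity)
      _ = 2 * (R * pm * Del) := by ring
      _ ≤ 2 * Th := by linarith
  have hE2 : E * E ≤ Real.exp (2 * Th) := by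
    calc E * E ≤ Real.exp Th * Real.exp Th := mul_le_mul hEexp hEexp (by linarith) (by positivity)
      _ = Real.exp (2 * Th) := by rw [← Real.exp_add]; ring_nf
  have htot : ∑ h, u h * w h ≤ (4 * Th + 1) * Real.exp (2 * Th) := by
    have h1 : R * pm * E * ∑ h, w h ≤ R * pm * E * (E * X2.card) :=
      mul_le_mul_of_nonneg_left hS (by positivity)
    have h2 : E * ∑ h ∈ F, w h ≤ E * (E * (1 + R * pm * X2.card)) :=
      mul_le_mul_of_nonneg_left hSF (by positivity)
    calc ∑ h, u h * w h ≤ R * pm * E * (E * X2.card) + E * (E * (1 + R * pm * X2.card)) := by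
          linarith
      _ = (2 * (R * pm * X2.card) + 1) * (E * E) := by ring
      _ ≤ (4 * Th + 1) * (E * E) := by
          refine mul_le_mul_of_nonneg_right ?_ (by positivity)
          linarith
      _ ≤ (4 * Th + 1) * Real.exp (2 * Th) :=
          mul_le_mul_of_nonneg_left hE2 (by positivity)
  have hpR : pm * R ≤ Th / Del := by
    rw [le_div_iff₀ hDel]
    linarith [hRD]
  unfold Gam
  calc 2 * pm * R * ∑ h, (TT nb pm)^[R] (ind X1) h * w h
      ≤ 2 * pm * R * ((4 * Th + 1) * Real.exp (2 * Th)) :=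
        mul_le_mul_of_nonneg_left (hmono.trans htot) (by positivity)
    _ = 2 * (pm * R) * ((4 * Th + 1) * Real.exp (2 * Th)) := by ring
    _ ≤ 2 * (Th / Del) * ((4 * Th + 1) * Real.exp (2 * Th)) := by
        refine mul_le_mul_of_nonneg_right ?_ (by positivity)
        linarith
    _ = 2 * Th * (4 * Th + 1) * Real.exp (2 * Th) / Del := by ring

/-- (2.3): decoupling when one of the sets lives over a fibre -/
theorem dc_fib {R : ℕ} {nb : H → Finset H} {p : ℕ → H → ℝ} {pm : ℝ}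
    (hsym : ∀ h h', h ∈ nb h' → h' ∈ nb h)
    (h0 : ∀ t h, 0 ≤ p t h) (h1 : ∀ t h, p t h ≤ pm) (hpm0 : 0 ≤ pm) (hpm1 : pm ≤ 1)
    {Dg : ℝ} (hDg : ∀ h, ((nb h).card : ℝ) ≤ Dg) {Del : ℝ} (hDel : 0 < Del) (hDD : Del ≤ Dg)
    {Th : ℝ} (hTh : pm * R * Dg ≤ Th)
    {F : Finset H} (hF : ∀ x, x ∉ F → ((nb x).filter (fun y => y ∈ F)).card ≤ 1)
    {s : ℕ} (hs : s ≤ R) {D1 D2 : Finset (ℕ × H)} (hD1 : ∀ z ∈ D1, z.1 < s)
    (hD2 : ∀ z ∈ D2, z.1 < s) (hX1 : ∀ z ∈ D1, z.2 ∈ F)
    {X2 : Finset H} (hX2 : ∀ z ∈ D2, z.2 ∈ X2) (hX2c : (X2.card : ℝ) ≤ 2 * Del)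
    (hX2F : (X2.filter (fun y => y ∈ F)).card ≤ 1) :
    |av R nb p (D1 ∪ D2) - av R nb p D1 * av R nb p D2| ≤
      2 * Th * (4 * Th + 1) * Real.exp (2 * Th) / Del :=
  (dc hsym h0 h1 hpm0 hpm1 hs hD1 hD2 hX1 hX2).trans
    (gam_fib_le hsym hpm0 hDg hDel hDD hTh hF (Finset.Subset.refl F) hX2c hX2F)

/-! ### formula (0.1) -/

/-- pairs which block (t,h) -/
def blk (nb : H → Finset H) (t : ℕ) (h : H) : Finset (ℕ × H) := range t ×ˢ nb h

lemma mem_blk {nb : H → Finset H} {t : ℕ} {h : H} {z : ℕ × H} :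
    z ∈ blk nb t h ↔ z.1 < t ∧ z.2 ∈ nb h := by
  unfold blk; rw [Finset.mem_product, Finset.mem_range]

lemma act_iff_avoid {nb : H → Finset H} {ζ : ℕ → H → Bool} {t : ℕ} {h : H} :
    act nb ζ t h ↔ ζ t h = true ∧ avoid nb (blk nb t h) ζ := by
  rw [act_iff]
  refine and_congr_right fun _ => ?_
  unfold avoid
  constructor
  · rintro h1 ⟨t', h'⟩ hz
    rw [mem_blk] at hz
    exact h1 t' hz.1 h' hz.2
  · intro h1 t' ht' h' hh'
    exact h1 (t', h') (mem_blk.2 ⟨ht', hh'⟩)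

lemma avoid_union {nb : H → Finset H} {D D' : Finset (ℕ × H)} {ζ : ℕ → H → Bool} :
    avoid nb (D ∪ D') ζ ↔ avoid nb D ζ ∧ avoid nb D' ζ := by
  unfold avoid
  constructor
  · intro h
    exact ⟨fun z hz => h z (Finset.mem_union_left _ hz),
      fun z hz => h z (Finset.mem_union_right _ hz)⟩
  · rintro ⟨h2, h3⟩ z hz
    rcases Finset.mem_union.1 hz with hz | hz
    · exact h2 z hz
    · exact h3 z hz

lemma avoid_mono {nb : H → Finset H} {D D' : Finset (ℕ × H)} {ζ : ℕ → H → Bool} (hD : D ⊆ D')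
    (h : avoid nb D' ζ) : avoid nb D ζ := fun z hz => h z (hD hz)

/-- avoid depends on early coins only -/
lemma avoid_early {nb : H → Finset H} {D : Finset (ℕ × H)} {t : ℕ} (hD : ∀ z ∈ D, z.1 < t)
    {ζ ζ' : ℕ → H → Bool} (heq : ∀ t' h, t' < t → ζ' t' h = ζ t' h) :
    avoid nb D ζ' ↔ avoid nb D ζ := by
  unfold avoid
  refine forall_congr' fun z => forall_congr' fun hz => not_congr ?_
  exact act_early z.1 (fun t' h ht' => heq t' h (lt_of_le_of_lt ht' (hD z hz))) z.2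

lemma av_mono {R : ℕ} {nb : H → Finset H} {p : ℕ → H → ℝ} (h0 : ∀ t h, 0 ≤ p t h)
    (h1 : ∀ t h, p t h ≤ 1) {D D' : Finset (ℕ × H)} (hD : D ⊆ D') :
    av R nb p D' ≤ av R nb p D :=
  Ex_mono (fun _ => h0 _ _) (fun _ => h1 _ _) fun _ => bi_mono (avoid_mono hD)

lemma av_nonneg {R : ℕ} {nb : H → Finset H} {p : ℕ → H → ℝ} (h0 : ∀ t h, 0 ≤ p t h)
    (h1 : ∀ t h, p t h ≤ 1) (D : Finset (ℕ × H)) : 0 ≤ av R nb p D :=
  Ex_nonneg (fun _ => h0 _ _) (fun _ => h1 _ _) fun _ => bi_nonneg _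

lemma av_le_one {R : ℕ} {nb : H → Finset H} {p : ℕ → H → ℝ} (h0 : ∀ t h, 0 ≤ p t h)
    (h1 : ∀ t h, p t h ≤ 1) (D : Finset (ℕ × H)) : av R nb p D ≤ 1 := by
  have h := Ex_mono (p := rt R p) (fun _ => h0 _ _) (fun _ => h1 _ _)
    (f := fun x => bi (avoid nb D (cur x))) (g := fun _ => 1) fun _ => bi_le_one _
  rwa [Ex_const] at h

/-- probability that (t,h) acts -/
def pa (R : ℕ) (nb : H → Finset H) (p : ℕ → H → ℝ) (t : ℕ) (h : H) : ℝ :=
  Ex (rt R p) (fun x => bi (act nb (cur x) t h))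

/-- (0.1) with an additional event -/
lemma act_avoid_eq {R : ℕ} (nb : H → Finset H) (p : ℕ → H → ℝ) {t : ℕ} (ht : t < R) (h : H)
    {D : Finset (ℕ × H)} (hD : ∀ z ∈ D, z.1 < t) :
    Ex (rt R p) (fun x => bi (act nb (cur x) t h ∧ avoid nb D (cur x))) =
      p t h * av R nb p (blk nb t h ∪ D) := by
  have hD' : ∀ z ∈ blk nb t h ∪ D, z.1 < t := by
    intro z hz
    rcases Finset.mem_union.1 hz with hz | hz
    · exact (mem_blk.1 hz).1
    · exact hD z hz
  have h1 := Ex_coin_mul (rt R p) (⟨t, ht⟩, h)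
    (g := fun x => bi (avoid nb (blk nb t h ∪ D) (cur x))) (by
      intro x y hxy
      refine bi_congr (avoid_early hD' fun t' h' ht' => ?_)
      exact cur_congr_ne hxy (Or.inl (by simp; omega)))
  change _ = p t h * av R nb p (blk nb t h ∪ D) at h1
  rw [← h1]
  congr 1
  funext x
  have h2 : (if x (⟨t, ht⟩, h) then (1 : ℝ) else 0) = bi (cur x t h = true) := by
    rw [cur_of_lt x ht]
    unfold bi
    split_ifs <;> rfl
  rw [h2, ← bi_and]
  refine bi_congr ?_
  rw [act_iff_avoid, avoid_union]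
  tauto

/-- (0.1) -/
lemma pa_eq {R : ℕ} (nb : H → Finset H) (p : ℕ → H → ℝ) {t : ℕ} (ht : t < R) (h : H) :
    pa R nb p t h = p t h * av R nb p (blk nb t h) := by
  have h1 := act_avoid_eq nb p ht h (D := ∅) (by simp)
  rw [Finset.union_empty] at h1
  rw [← h1]
  unfold pa
  congr 1
  funext x
  refine bi_congr ⟨fun h2 => ⟨h2, fun z hz => absurd hz (by simp)⟩, fun h2 => h2.1⟩

/-- two elements acting in the same round -/
lemma act_act_eq {R : ℕ} (nb : H → Finset H) (p : ℕ → H → ℝ) {t : ℕ} (ht : t < R) {h h' : H}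
    (hne : h ≠ h') :
    Ex (rt R p) (fun x => bi (act nb (cur x) t h ∧ act nb (cur x) t h')) =
      p t h * p t h' * av R nb p (blk nb t h ∪ blk nb t h') := by
  have hD' : ∀ z ∈ blk nb t h ∪ blk nb t h', z.1 < t := by
    intro z hz
    rcases Finset.mem_union.1 hz with hz | hz
    · exact (mem_blk.1 hz).1
    · exact (mem_blk.1 hz).1
  have h1 := Ex_coin_mul (rt R p) (⟨t, ht⟩, h')
    (g := fun x => bi (avoid nb (blk nb t h ∪ blk nb t h') (cur x))) (by
      intro x y hxy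
      refine bi_congr (avoid_early hD' fun t' h' ht' => ?_)
      exact cur_congr_ne hxy (Or.inl (by simp; omega)))
  change _ = p t h' * av R nb p (blk nb t h ∪ blk nb t h') at h1
  have h3 := Ex_coin_mul (rt R p) (⟨t, ht⟩, h)
    (g := fun x => (if x (⟨t, ht⟩, h') then 1 else 0) *
      bi (avoid nb (blk nb t h ∪ blk nb t h') (cur x))) (by
      intro x y hxy
      have e1 : y (⟨t, ht⟩, h') = x (⟨t, ht⟩, h') := hxy _ (by
        intro hc
        exact hne (congrArg Prod.snd hc).symm)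
      rw [e1]
      congr 1
      refine bi_congr (avoid_early hD' fun t' h' ht' => ?_)
      exact cur_congr_ne hxy (Or.inl (by simp; omega)))
  rw [h1] at h3
  change _ = p t h * (p t h' * av R nb p (blk nb t h ∪ blk nb t h')) at h3
  rw [mul_assoc, ← h3]
  congr 1
  funext x
  have h2 : ∀ g, (if x (⟨t, ht⟩, g) then (1 : ℝ) else 0) = bi (cur x t g = true) := by
    intro g
    rw [cur_of_lt x ht]
    unfold bi
    split_ifs <;> rfl
  rw [h2, h2, ← bi_and, ← bi_and]
  refine bi_congr ?_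
  rw [act_iff_avoid, act_iff_avoid, avoid_union]
  tauto

end

end VuB
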