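import Pool.Agent.Lib_helper3.VuB.Proc

/-!
# Reach probabilities and the decoupling lemma
-/

open Finset

namespace VuB

noncomputable section

open Classical in
/-- indicator of a set of elements -/
def ind {H : Type*} (X : Finset H) (h : H) : ℝ := if h ∈ X then 1 else 0

/-- nothing in D acts -/
def avoid {H : Type*} [Fintype H] [DecidableEq H] (nb : H → Finset H) (D : Finset (ℕ × H))
    (ζ : ℕ → H → Bool) : Prop :=
  ∀ z ∈ D, ¬ act nb ζ z.1 z.2

open Classical in
/-- real indicator of a proposition -/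
def bi (P : Prop) : ℝ := if P then 1 else 0

lemma bi_nonneg (P : Prop) : 0 ≤ bi P := by unfold bi; split_ifs <;> norm_num

lemma bi_le_one (P : Prop) : bi P ≤ 1 := by unfold bi; split_ifs <;> norm_num

lemma bi_congr {P Q : Prop} (h : P ↔ Q) : bi P = bi Q := by rw [propext h]

lemma bi_true {P : Prop} (h : P) : bi P = 1 := by unfold bi; simp [h]

lemma bi_false {P : Prop} (h : ¬ P) : bi P = 0 := by unfold bi; simp [h]

lemma bi_mono {P Q : Prop} (h : P → Q) : bi P ≤ bi Q := by
  unfold bi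
  split_ifs with h1 h2
  · exact le_rfl
  · exact absurd (h h1) h2
  · norm_num
  · exact le_rfl

lemma bi_and {P Q : Prop} : bi (P ∧ Q) = bi P * bi Q := by
  unfold bi
  by_cases h1 : P <;> by_cases h2 : Q <;> simp [h1, h2]

lemma ind_nonneg {H : Type*} (X : Finset H) (h : H) : 0 ≤ ind X h := by
  unfold ind; split_ifs <;> norm_num

lemma ind_mono {H : Type*} {X Y : Finset H} (hXY : X ⊆ Y) (h : H) : ind X h ≤ ind Y h := by
  unfold ind
  split_ifs with h1 h2
  · exact le_rfl
  · exact absurd (hXY h1) h2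
  · norm_num
  · exact le_rfl

variable {H : Type*} [Fintype H] [DecidableEq H]

/-- probability that nothing in D acts -/
def av (R : ℕ) (nb : H → Finset H) (p : ℕ → H → ℝ) (D : Finset (ℕ × H)) : ℝ :=
  Ex (rt R p) (fun x => bi (avoid nb D (cur x)))

/-- probability that (t,h) is explored from D -/
def rho (R : ℕ) (nb : H → Finset H) (p : ℕ → H → ℝ) (D : Finset (ℕ × H)) (t : ℕ) (h : H) : ℝ :=
  Ex (rt R p) (fun x => bi (Reach nb D (cur x) t h))

lemma cur_of_lt {R : ℕ} (x : Fin R × H → Bool) {t : ℕ} (ht : t < R) (h : H) :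
    cur x t h = x (⟨t, ht⟩, h) := by
  unfold cur; simp [ht]

lemma cur_congr_ne {R : ℕ} {x y : Fin R × H → Bool} {i : Fin R × H}
    (hxy : ∀ j, j ≠ i → y j = x j) {t : ℕ} {h : H} (hne : t ≠ i.1 ∨ h ≠ i.2) :
    cur y t h = cur x t h := by
  unfold cur
  split_ifs with ht
  · refine hxy _ fun he => ?_
    rcases hne with h1 | h1
    · exact h1 (by rw [← he])
    · exact h1 (by rw [← he])
  · rfl

/-- a coin and the exploration of its index are independent -/
lemma Ex_coin_reach {R : ℕ} (nb : H → Finset H) (p : ℕ → H → ℝ) (D : Finset (ℕ × H))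
    (i : Fin R × H) :
    Ex (rt R p) (fun x => (if x i then 1 else 0) * bi (Reach nb D (cur x) i.1 i.2)) =
      p i.1 i.2 * rho R nb p D i.1 i.2 := by
  unfold rho
  rw [Ex_coin_mul (rt R p) i (g := fun x => bi (Reach nb D (cur x) i.1 i.2))]
  · rfl
  · intro x y hxy
    refine bi_congr ⟨fun hr => ?_, fun hr => ?_⟩
    · refine reach_late (t0 := i.1) (fun t h ht => ?_) le_rfl hr
      exact (cur_congr_ne hxy (Or.inl (by omega))).symm
    · refine reach_late (t0 := i.1) (fun t h ht => ?_) le_rfl hr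
      exact cur_congr_ne hxy (Or.inl (by omega))

section reach

variable {R : ℕ} {nb : H → Finset H} {p : ℕ → H → ℝ} {pm : ℝ}
  (hsym : ∀ h h', h ∈ nb h' → h' ∈ nb h)
  (h0 : ∀ t h, 0 ≤ p t h) (h1 : ∀ t h, p t h ≤ pm) (hpm1 : pm ≤ 1)

include hsym h0 h1 hpm1 in
/-- (2.2) -/
lemma rho_le {s : ℕ} (hs : s ≤ R) {D : Finset (ℕ × H)} (hD : ∀ z ∈ D, z.1 < s)
    {X : Finset H} (hX : ∀ z ∈ D, z.2 ∈ X) (hpm0 : 0 ≤ pm) (m : ℕ) :
    ∀ t h, m + 1 + t = s → rho R nb p D t h ≤ (TT nb pm)^[m] (ind X) h := by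
  induction m using Nat.strong_induction_on with
  | _ m ih =>
    intro t h hm
    have hr0 : ∀ i, 0 ≤ rt R p i := fun i => h0 _ _
    have hr1 : ∀ i, rt R p i ≤ 1 := fun i => (h1 _ _).trans hpm1
    -- pointwise union bound
    have hpt : ∀ x : Fin R × H → Bool, bi (Reach nb D (cur x) t h) ≤
        ind X h + ∑ j ∈ range m, ∑ h'' ∈ nb h,
          bi (cur x (s - 1 - j) h'' = true) * bi (Reach nb D (cur x) (s - 1 - j) h'') := by
      intro x
      have hnn : ∀ j ∈ range m, 0 ≤ ∑ h'' ∈ nb h,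
          bi (cur x (s - 1 - j) h'' = true) * bi (Reach nb D (cur x) (s - 1 - j) h'') :=
        fun j _ => Finset.sum_nonneg fun h'' _ => mul_nonneg (bi_nonneg _) (bi_nonneg _)
      by_cases hr : Reach nb D (cur x) t h
      · rw [bi_true hr]
        rcases hr.cases' with hd | ⟨t'', h'', ht'', hh'', hr'', hc⟩
        · have : ind X h = 1 := by unfold ind; simp [hX _ hd]
          rw [this]
          linarith [Finset.sum_nonneg hnn]
        · have hlt := hr''.lt hD
          have hj : s - 1 - t'' ∈ range m := by rw [Finset.mem_range]; omega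
          have hjt : s - 1 - (s - 1 - t'') = t'' := by omega
          have h2 := Finset.single_le_sum hnn hj
          rw [hjt] at h2
          have h3 := Finset.single_le_sum (s := nb h)
            (f := fun h'' => bi (cur x t'' h'' = true) * bi (Reach nb D (cur x) t'' h''))
            (fun h'' _ => mul_nonneg (bi_nonneg _) (bi_nonneg _)) (hsym _ _ hh'')
          simp only [bi_true hc, bi_true hr'', mul_one] at h3
          linarith [ind_nonneg X h]
      · rw [bi_false hr]
        linarith [Finset.sum_nonneg hnn, ind_nonneg X h]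
    have hE : rho R nb p D t h ≤ ind X h + ∑ j ∈ range m, ∑ h'' ∈ nb h,
        pm * (TT nb pm)^[j] (ind X) h'' := by
      unfold rho
      refine (Ex_mono hr0 hr1 hpt).trans ?_
      rw [Ex_add, Ex_const, Ex_sum]
      refine add_le_add le_rfl (Finset.sum_le_sum fun j hj => ?_)
      rw [Ex_sum]
      refine Finset.sum_le_sum fun h'' _ => ?_
      rw [Finset.mem_range] at hj
      have hlt : s - 1 - j < R := by omega
      have he := Ex_coin_reach nb p D (⟨s - 1 - j, hlt⟩, h'')
      have he' : Ex (rt R p) (fun x => bi (cur x (s - 1 - j) h'' = true) *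
          bi (Reach nb D (cur x) (s - 1 - j) h'')) =
          p (s - 1 - j) h'' * rho R nb p D (s - 1 - j) h'' := by
        rw [← he]
        congr 1
        funext x
        rw [cur_of_lt x hlt]
        congr 1
        unfold bi
        split_ifs <;> rfl
      rw [he']
      have ih' := ih j hj (s - 1 - j) h'' (by omega)
      refine mul_le_mul (h1 _ _) ih' ?_ hpm0
      exact Ex_nonneg hr0 hr1 fun x => bi_nonneg _
    refine hE.trans (le_of_eq ?_)
    rw [TT_iter_eq, Finset.mul_sum]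
    congr 1
    refine Finset.sum_congr rfl fun j _ => ?_
    rw [Finset.mul_sum]

include hsym h0 h1 hpm1 in
lemma rho_le_R {s : ℕ} (hs : s ≤ R) {D : Finset (ℕ × H)} (hD : ∀ z ∈ D, z.1 < s)
    {X : Finset H} (hX : ∀ z ∈ D, z.2 ∈ X) (hpm0 : 0 ≤ pm) (t : ℕ) (h : H) :
    rho R nb p D t h ≤ (TT nb pm)^[R] (ind X) h := by
  by_cases ht : t < s
  · refine (rho_le hsym h0 h1 hpm1 hs hD hX hpm0 (s - 1 - t) t h (by omega)).trans ?_
    exact TT_iter_mono_left hpm0 (ind_nonneg X) (by omega) h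
  · have : rho R nb p D t h = 0 := by
      unfold rho
      have h2 : (fun x : Fin R × H → Bool => bi (Reach nb D (cur x) t h)) = fun _ => 0 := by
        funext x
        refine bi_false fun hr => ht (hr.lt hD)
      rw [h2, Ex_const]
    rw [this]
    exact TT_iter_nonneg hpm0 (ind_nonneg X) R h

end reach

/-- explored index set -/
def Rs (R : ℕ) (nb : H → Finset H) (D : Finset (ℕ × H)) (x : Fin R × H → Bool) :
    Finset (Fin R × H) := by
  classical exact univ.filter (fun i => Reach nb D (cur x) i.1 i.2)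

lemma mem_Rs {R : ℕ} {nb : H → Finset H} {D : Finset (ℕ × H)} {x : Fin R × H → Bool}
    {i : Fin R × H} : i ∈ Rs R nb D x ↔ Reach nb D (cur x) i.1 i.2 := by
  unfold Rs; simp

lemma cur_eq_of_Rs {R : ℕ} {nb : H → Finset H} {D : Finset (ℕ × H)} {x y : Fin R × H → Bool}
    (hxy : ∀ i ∈ Rs R nb D x, y i = x i) (t : ℕ) (h : H) (hr : Reach nb D (cur x) t h) :
    cur y t h = cur x t h := by
  unfold cur
  split_ifs with ht
  · exact hxy _ (mem_Rs.2 hr)
  · rfl

lemma stop_Rs (R : ℕ) (nb : H → Finset H) (D : Finset (ℕ × H)) : Stop (Rs R nb D) := by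
  intro x y hxy
  ext i
  rw [mem_Rs, mem_Rs]
  exact reach_congr_iff (cur_eq_of_Rs hxy) _ _

lemma avoid_congr {R : ℕ} {nb : H → Finset H} {D : Finset (ℕ × H)} {x y : Fin R × H → Bool}
    (hxy : ∀ i ∈ Rs R nb D x, y i = x i) :
    avoid nb D (cur y) ↔ avoid nb D (cur x) := by
  unfold avoid
  refine forall_congr' fun z => forall_congr' fun hz => not_congr ?_
  exact act_congr (cur_eq_of_Rs hxy) z.1 z.2 (Reach.base hz)

/-- the decoupling lemma -/
theorem dc {R : ℕ} {nb : H → Finset H} {p : ℕ → H → ℝ} {pm : ℝ}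
    (hsym : ∀ h h', h ∈ nb h' → h' ∈ nb h)
    (h0 : ∀ t h, 0 ≤ p t h) (h1 : ∀ t h, p t h ≤ pm) (hpm0 : 0 ≤ pm) (hpm1 : pm ≤ 1)
    {s : ℕ} (hs : s ≤ R) {D1 D2 : Finset (ℕ × H)} (hD1 : ∀ z ∈ D1, z.1 < s)
    (hD2 : ∀ z ∈ D2, z.1 < s) {X1 X2 : Finset H} (hX1 : ∀ z ∈ D1, z.2 ∈ X1)
    (hX2 : ∀ z ∈ D2, z.2 ∈ X2) :
    |av R nb p (D1 ∪ D2) - av R nb p D1 * av R nb p D2| ≤
      2 * pm * R * ∑ h, (TT nb pm)^[R] (ind X1) h * (TT nb pm)^[R] (ind X2) h := by
  have hr0 : ∀ i, 0 ≤ rt R p i := fun i => h0 _ _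
  have hr1 : ∀ i, rt R p i ≤ 1 := fun i => (h1 _ _).trans hpm1
  set a1 : (Fin R × H → Bool) → ℝ := fun x => bi (avoid nb D1 (cur x)) with ha1
  set a2 : (Fin R × H → Bool) → ℝ := fun x => bi (avoid nb D2 (cur x)) with ha2
  set S := Rs R nb D1 with hSdef
  set S2 := Rs R nb D2 with hS2def
  have hun : av R nb p (D1 ∪ D2) = Ex2 (rt R p) (fun x y => a1 x * a2 (mix S x y)) := by
    have e1 : av R nb p (D1 ∪ D2) = Ex (rt R p) (fun x => a1 x * a2 x) := by
      unfold av
      congr 1
      funext x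
      rw [ha1, ha2]
      simp only
      rw [← bi_and]
      refine bi_congr ?_
      unfold avoid
      constructor
      · intro h
        exact ⟨fun z hz => h z (Finset.mem_union_left _ hz),
          fun z hz => h z (Finset.mem_union_right _ hz)⟩
      · rintro ⟨h2, h3⟩ z hz
        rcases Finset.mem_union.1 hz with hz | hz
        · exact h2 z hz
        · exact h3 z hz
    rw [e1, ← Ex2_left]
    have e2 := Ex2_mix (rt R p) (stop_Rs R nb D1) (fun x _ => a1 x * a2 x)
    rw [← e2]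
    congr 1
    funext x y
    have : a1 (mix (Rs R nb D1) x y) = a1 x := by
      refine bi_congr (avoid_congr fun i hi => ?_)
      simp [mix, hi]
    rw [this]
  have hpr : av R nb p D1 * av R nb p D2 = Ex2 (rt R p) (fun x y => a1 x * a2 y) := by
    rw [Ex2_prod]; rfl
  rw [hun, hpr, ← Ex2_sub]
  refine (abs_Ex2_le hr0 hr1 _).trans ?_
  -- pointwise bound
  have hpt : ∀ x y : Fin R × H → Bool, |a1 x * a2 (mix S x y) - a1 x * a2 y| ≤
      ∑ i : Fin R × H, (((if x i then 1 else 0) * bi (Reach nb D1 (cur x) i.1 i.2)) *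
          bi (Reach nb D2 (cur y) i.1 i.2) +
        bi (Reach nb D1 (cur x) i.1 i.2) *
          ((if y i then 1 else 0) * bi (Reach nb D2 (cur y) i.1 i.2))) := by
    intro x y
    have hnn : ∀ i : Fin R × H, 0 ≤ (((if x i then (1 : ℝ) else 0) *
          bi (Reach nb D1 (cur x) i.1 i.2)) * bi (Reach nb D2 (cur y) i.1 i.2) +
        bi (Reach nb D1 (cur x) i.1 i.2) *
          ((if y i then 1 else 0) * bi (Reach nb D2 (cur y) i.1 i.2))) := by
      intro i
      have b1 := bi_nonneg (Reach nb D1 (cur x) i.1 i.2)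
      have b2 := bi_nonneg (Reach nb D2 (cur y) i.1 i.2)
      have b3 : (0 : ℝ) ≤ if x i then 1 else 0 := by split_ifs <;> norm_num
      have b4 : (0 : ℝ) ≤ if y i then 1 else 0 := by split_ifs <;> norm_num
      positivity
    by_cases hall : ∀ i ∈ S2 y, mix S x y i = y i
    · have : a2 (mix S x y) = a2 y := bi_congr (avoid_congr hall)
      rw [this, sub_self, abs_zero]
      exact Finset.sum_nonneg fun i _ => hnn i
    · push Not at hall
      obtain ⟨i, hi2, hne⟩ := hall
      have hi1 : i ∈ S x := by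
        by_contra hc
        exact hne (by simp [mix, hc])
      have hne' : x i ≠ y i := by
        intro hc
        apply hne
        simp [mix, hi1, hc]
      have hb : |a1 x * a2 (mix S x y) - a1 x * a2 y| ≤ 1 := by
        have c1 := bi_nonneg (avoid nb D1 (cur x))
        have c2 := bi_le_one (avoid nb D1 (cur x))
        have c3 := bi_nonneg (avoid nb D2 (cur (mix S x y)))
        have c4 := bi_le_one (avoid nb D2 (cur (mix S x y)))
        have c5 := bi_nonneg (avoid nb D2 (cur y))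
        have c6 := bi_le_one (avoid nb D2 (cur y))
        rw [← mul_sub, abs_mul, ha1, ha2]
        simp only
        rw [abs_of_nonneg c1]
        have : |bi (avoid nb D2 (cur (mix S x y))) - bi (avoid nb D2 (cur y))| ≤ 1 := by
          rw [abs_le]; constructor <;> linarith
        calc _ ≤ 1 * 1 := mul_le_mul c2 this (abs_nonneg _) (by norm_num)
          _ = 1 := by norm_num
      refine hb.trans ?_
      refine le_trans ?_ (Finset.single_le_sum (fun j _ => hnn j) (Finset.mem_univ i))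
      rw [bi_true (mem_Rs.1 hi1), bi_true (mem_Rs.1 hi2)]
      cases hx : x i <;> cases hy : y i <;> simp_all
  refine (Ex2_mono hr0 hr1 hpt).trans ?_
  rw [Ex2_sum]
  have hterm : ∀ i : Fin R × H, Ex2 (rt R p) (fun x y =>
      (((if x i then 1 else 0) * bi (Reach nb D1 (cur x) i.1 i.2)) *
          bi (Reach nb D2 (cur y) i.1 i.2) +
        bi (Reach nb D1 (cur x) i.1 i.2) *
          ((if y i then 1 else 0) * bi (Reach nb D2 (cur y) i.1 i.2)))) ≤
      2 * pm * ((TT nb pm)^[R] (ind X1) i.2 * (TT nb pm)^[R] (ind X2) i.2) := by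
    intro i
    rw [Ex2_add]
    rw [Ex2_prod (rt R p) (fun x => (if x i then 1 else 0) * bi (Reach nb D1 (cur x) i.1 i.2))
      (fun y => bi (Reach nb D2 (cur y) i.1 i.2))]
    rw [Ex2_prod (rt R p) (fun x => bi (Reach nb D1 (cur x) i.1 i.2))
      (fun y => (if y i then 1 else 0) * bi (Reach nb D2 (cur y) i.1 i.2))]
    rw [Ex_coin_reach, Ex_coin_reach]
    change p i.1 i.2 * rho R nb p D1 i.1 i.2 * rho R nb p D2 i.1 i.2 +
      rho R nb p D1 i.1 i.2 * (p i.1 i.2 * rho R nb p D2 i.1 i.2) ≤ _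
    have r1 := rho_le_R hsym h0 h1 hpm1 hs hD1 hX1 hpm0 i.1 i.2
    have r2 := rho_le_R hsym h0 h1 hpm1 hs hD2 hX2 hpm0 i.1 i.2
    have r3 : 0 ≤ rho R nb p D1 i.1 i.2 := Ex_nonneg hr0 hr1 fun x => bi_nonneg _
    have r4 : 0 ≤ rho R nb p D2 i.1 i.2 := Ex_nonneg hr0 hr1 fun x => bi_nonneg _
    have r5 : rho R nb p D1 i.1 i.2 * rho R nb p D2 i.1 i.2 ≤
        (TT nb pm)^[R] (ind X1) i.2 * (TT nb pm)^[R] (ind X2) i.2 :=
      mul_le_mul r1 r2 r4 (r3.trans r1)
    have r6 : p i.1 i.2 * (rho R nb p D1 i.1 i.2 * rho R nb p D2 i.1 i.2) ≤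
        pm * ((TT nb pm)^[R] (ind X1) i.2 * (TT nb pm)^[R] (ind X2) i.2) :=
      mul_le_mul (h1 _ _) r5 (mul_nonneg r3 r4) hpm0
    nlinarith [r6]
  refine (Finset.sum_le_sum fun i _ => hterm i).trans (le_of_eq ?_)
  rw [Fintype.sum_prod_type]
  simp only
  rw [Finset.sum_const, Finset.card_univ, Fintype.card_fin, nsmul_eq_mul, ← Finset.mul_sum]
  ring

end

end VuB
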