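import Pool.Agent.Lib_helper3.VuB.Prod

/-!
# The activation process, exploration sets
-/

open Finset

namespace VuB

noncomputable section

variable {H : Type*} [Fintype H] [DecidableEq H]

/-- elements which acted before round t; the coins are ζ t h -/
def acted (nb : H → Finset H) (ζ : ℕ → H → Bool) : ℕ → Finset H
  | 0 => ∅
  | t + 1 => acted nb ζ t ∪
      univ.filter (fun h => ζ t h = true ∧ ∀ h' ∈ nb h, h' ∉ acted nb ζ t)

/-- h acts in round t -/
def act (nb : H → Finset H) (ζ : ℕ → H → Bool) (t : ℕ) (h : H) : Prop :=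
  ζ t h = true ∧ ∀ h' ∈ nb h, h' ∉ acted nb ζ t

lemma mem_acted {nb : H → Finset H} {ζ : ℕ → H → Bool} {t : ℕ} {h : H} :
    h ∈ acted nb ζ t ↔ ∃ t' < t, act nb ζ t' h := by
  induction t with
  | zero => simp [acted]
  | succ t ih =>
    rw [acted, Finset.mem_union, ih, Finset.mem_filter]
    constructor
    · rintro (⟨t', ht', ha⟩ | ⟨_, ha⟩)
      · exact ⟨t', by omega, ha⟩
      · exact ⟨t, by omega, ha⟩
    · rintro ⟨t', ht', ha⟩
      rcases Nat.lt_succ_iff_lt_or_eq.1 ht' with h1 | h1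
      · exact Or.inl ⟨t', h1, ha⟩
      · subst h1
        exact Or.inr ⟨Finset.mem_univ _, ha⟩

/-- the characterisation used in the paper -/
lemma act_iff {nb : H → Finset H} {ζ : ℕ → H → Bool} {t : ℕ} {h : H} :
    act nb ζ t h ↔ ζ t h = true ∧ ∀ t' < t, ∀ h' ∈ nb h, ¬ act nb ζ t' h' := by
  unfold act
  constructor
  · rintro ⟨h1, h2⟩
    refine ⟨h1, fun t' ht' h' hh' ha => h2 h' hh' (mem_acted.2 ⟨t', ht', ha⟩)⟩
  · rintro ⟨h1, h2⟩
    refine ⟨h1, fun h' hh' hm => ?_⟩
    obtain ⟨t', ht', ha⟩ := mem_acted.1 hm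
    exact h2 t' ht' h' hh' ha

/-- exploration set -/
inductive Reach (nb : H → Finset H) (D : Finset (ℕ × H)) (ζ : ℕ → H → Bool) : ℕ → H → Prop
  | base {t : ℕ} {h : H} : (t, h) ∈ D → Reach nb D ζ t h
  | step {t t' : ℕ} {h h' : H} : Reach nb D ζ t h → ζ t h = true → t' < t → h' ∈ nb h →
      Reach nb D ζ t' h'

lemma Reach.lt {nb : H → Finset H} {D : Finset (ℕ × H)} {ζ : ℕ → H → Bool} {s : ℕ}
    (hD : ∀ z ∈ D, z.1 < s) {t : ℕ} {h : H} (hr : Reach nb D ζ t h) : t < s := by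
  induction hr with
  | base hm => exact hD _ hm
  | step _ _ hlt _ ih => omega

/-- the exploration only depends on the coins of the explored elements -/
lemma Reach.congr {nb : H → Finset H} {D : Finset (ℕ × H)} {ζ ζ' : ℕ → H → Bool}
    (heq : ∀ t h, Reach nb D ζ t h → ζ' t h = ζ t h) {t : ℕ} {h : H}
    (hr : Reach nb D ζ t h) : Reach nb D ζ' t h := by
  induction hr with
  | base hm => exact Reach.base hm
  | step h1 h2 h3 h4 ih => exact Reach.step ih ((heq _ _ h1).trans h2) h3 h4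

lemma Reach.congr' {nb : H → Finset H} {D : Finset (ℕ × H)} {ζ ζ' : ℕ → H → Bool}
    (heq : ∀ t h, Reach nb D ζ t h → ζ' t h = ζ t h) {t : ℕ} {h : H}
    (hr : Reach nb D ζ' t h) : Reach nb D ζ t h := by
  induction hr with
  | base hm => exact Reach.base hm
  | step h1 h2 h3 h4 ih => exact Reach.step ih ((heq _ _ ih).symm.trans h2) h3 h4

lemma reach_congr_iff {nb : H → Finset H} {D : Finset (ℕ × H)} {ζ ζ' : ℕ → H → Bool}
    (heq : ∀ t h, Reach nb D ζ t h → ζ' t h = ζ t h) (t : ℕ) (h : H) :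
    Reach nb D ζ' t h ↔ Reach nb D ζ t h :=
  ⟨Reach.congr' heq, Reach.congr heq⟩

/-- activity on the exploration set only depends on its coins -/
lemma act_congr {nb : H → Finset H} {D : Finset (ℕ × H)} {ζ ζ' : ℕ → H → Bool}
    (heq : ∀ t h, Reach nb D ζ t h → ζ' t h = ζ t h) (t : ℕ) :
    ∀ h, Reach nb D ζ t h → (act nb ζ' t h ↔ act nb ζ t h) := by
  induction t using Nat.strong_induction_on with
  | _ t ih =>
    intro h hr
    rw [act_iff, act_iff, heq t h hr]
    constructor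
    · rintro ⟨h1, h2⟩
      refine ⟨h1, fun t' ht' h' hh' ha => ?_⟩
      exact h2 t' ht' h' hh' ((ih t' ht' h' (Reach.step hr h1 ht' hh')).2 ha)
    · rintro ⟨h1, h2⟩
      refine ⟨h1, fun t' ht' h' hh' ha => ?_⟩
      exact h2 t' ht' h' hh' ((ih t' ht' h' (Reach.step hr h1 ht' hh')).1 ha)

/-- whether (t,h) is explored depends on later coins only -/
lemma reach_late {nb : H → Finset H} {D : Finset (ℕ × H)} {ζ ζ' : ℕ → H → Bool} {t0 : ℕ}
    (heq : ∀ t h, t0 < t → ζ' t h = ζ t h) {t : ℕ} {h : H} (ht : t0 ≤ t)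
    (hr : Reach nb D ζ t h) : Reach nb D ζ' t h := by
  induction hr with
  | base hm => exact Reach.base hm
  | @step t t' h h' h1 h2 h3 h4 ih =>
    exact Reach.step (ih (by omega)) ((heq _ _ (by omega)).trans h2) h3 h4

/-- one step analysis -/
lemma Reach.cases' {nb : H → Finset H} {D : Finset (ℕ × H)} {ζ : ℕ → H → Bool} {t : ℕ} {h : H}
    (hr : Reach nb D ζ t h) : (t, h) ∈ D ∨ ∃ t'' h'', t < t'' ∧ h ∈ nb h'' ∧
      Reach nb D ζ t'' h'' ∧ ζ t'' h'' = true := by
  cases hr with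
  | base hm => exact Or.inl hm
  | @step t1 _ h1 _ a b c d => exact Or.inr ⟨t1, h1, c, d, a, b⟩

/-- act in round t depends only on coins of rounds at most t -/
lemma act_early {nb : H → Finset H} {ζ ζ' : ℕ → H → Bool} (t : ℕ) :
    ∀ (_ : ∀ t' h, t' ≤ t → ζ' t' h = ζ t' h) h, act nb ζ' t h ↔ act nb ζ t h := by
  induction t using Nat.strong_induction_on with
  | _ t ih =>
    intro heq h
    rw [act_iff, act_iff, heq t h le_rfl]
    refine and_congr_right fun _ => ?_
    refine forall_congr' fun t' => forall_congr' fun ht' => forall_congr' fun h' =>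
      forall_congr' fun _ => not_congr ?_
    exact ih t' ht' (fun t'' h'' h3 => heq t'' h'' (by omega)) h'

/-! ### the coin space -/

/-- coins as a function of time -/
def cur {R : ℕ} (x : Fin R × H → Bool) (t : ℕ) (h : H) : Bool :=
  if ht : t < R then x (⟨t, ht⟩, h) else false

/-- rates as a function on the index set -/
def rt (R : ℕ) (p : ℕ → H → ℝ) (i : Fin R × H) : ℝ := p i.1 i.2

/-- the operator T -/
def TT (nb : H → Finset H) (pm : ℝ) (w : H → ℝ) (h : H) : ℝ := w h + pm * ∑ h' ∈ nb h, w h'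

lemma TT_mono {nb : H → Finset H} {pm : ℝ} (hpm : 0 ≤ pm) {w w' : H → ℝ} (h : ∀ x, w x ≤ w' x)
    (x : H) : TT nb pm w x ≤ TT nb pm w' x := by
  unfold TT
  have := Finset.sum_le_sum fun y (_ : y ∈ nb x) => h y
  have h2 := h x
  nlinarith [mul_le_mul_of_nonneg_left this hpm]

lemma TT_nonneg {nb : H → Finset H} {pm : ℝ} (hpm : 0 ≤ pm) {w : H → ℝ} (h : ∀ x, 0 ≤ w x)
    (x : H) : 0 ≤ TT nb pm w x := by
  unfold TT
  have := Finset.sum_nonneg fun y (_ : y ∈ nb x) => h y
  have h2 := h x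
  positivity

lemma TT_iter_nonneg {nb : H → Finset H} {pm : ℝ} (hpm : 0 ≤ pm) {w : H → ℝ}
    (h : ∀ x, 0 ≤ w x) (j : ℕ) : ∀ x, 0 ≤ (TT nb pm)^[j] w x := by
  induction j with
  | zero => exact h
  | succ j ih => rw [Function.iterate_succ_apply']; exact TT_nonneg hpm ih

lemma TT_iter_mono {nb : H → Finset H} {pm : ℝ} (hpm : 0 ≤ pm) {w w' : H → ℝ}
    (h : ∀ x, w x ≤ w' x) (j : ℕ) : ∀ x, (TT nb pm)^[j] w x ≤ (TT nb pm)^[j] w' x := by
  induction j with
  | zero => exact h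
  | succ j ih =>
    rw [Function.iterate_succ_apply', Function.iterate_succ_apply']; exact TT_mono hpm ih

lemma le_TT {nb : H → Finset H} {pm : ℝ} (hpm : 0 ≤ pm) {w : H → ℝ} (h : ∀ x, 0 ≤ w x)
    (x : H) : w x ≤ TT nb pm w x := by
  unfold TT
  have := Finset.sum_nonneg fun y (_ : y ∈ nb x) => h y
  nlinarith [mul_nonneg hpm this]

lemma TT_iter_mono_left {nb : H → Finset H} {pm : ℝ} (hpm : 0 ≤ pm) {w : H → ℝ}
    (h : ∀ x, 0 ≤ w x) {i j : ℕ} (hij : i ≤ j) (x : H) :
    (TT nb pm)^[i] w x ≤ (TT nb pm)^[j] w x := by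
  induction j, hij using Nat.le_induction with
  | base => exact le_rfl
  | succ j _ ih =>
    refine ih.trans ?_
    rw [Function.iterate_succ_apply']
    exact le_TT hpm (TT_iter_nonneg hpm h j) x

/-- T^m w = w + pm * sum_{j<m} A T^j w -/
lemma TT_iter_eq (nb : H → Finset H) (pm : ℝ) (w : H → ℝ) (m : ℕ) (x : H) :
    (TT nb pm)^[m] w x = w x + pm * ∑ j ∈ range m, ∑ y ∈ nb x, (TT nb pm)^[j] w y := by
  induction m with
  | zero => simp
  | succ m ih =>
    rw [Function.iterate_succ_apply', TT, ih, Finset.sum_range_succ]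
    ring

end

end VuB
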