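import Mathlib

/-!
# Independent coins: finite product space, swap lemma, independence
-/

open Finset

namespace VuB

noncomputable section

variable {I : Type*} [Fintype I] [DecidableEq I]

/-- weight of an outcome -/
def wt (p : I → ℝ) (x : I → Bool) : ℝ := ∏ i, if x i then p i else 1 - p i

/-- expectation -/
def Ex (p : I → ℝ) (f : (I → Bool) → ℝ) : ℝ := ∑ x, wt p x * f x

/-- probability -/
def Pr (p : I → ℝ) (A : (I → Bool) → Prop) : ℝ := by
  classical exact Ex p (fun x => if A x then 1 else 0)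

lemma wt_nonneg {p : I → ℝ} (h0 : ∀ i, 0 ≤ p i) (h1 : ∀ i, p i ≤ 1) (x : I → Bool) :
    0 ≤ wt p x := by
  unfold wt
  refine Finset.prod_nonneg fun i _ => ?_
  split_ifs
  · exact h0 i
  · linarith [h1 i]

lemma sum_wt (p : I → ℝ) : ∑ x : I → Bool, wt p x = 1 := by
  unfold wt
  have h := Finset.prod_univ_sum (t := fun _ : I => (univ : Finset Bool))
    (f := fun i b => if b then p i else 1 - p i)
  rw [Fintype.piFinset_univ] at h
  rw [← h]
  refine Finset.prod_eq_one fun i _ => ?_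
  simp

lemma Ex_const (p : I → ℝ) (c : ℝ) : Ex p (fun _ => c) = c := by
  unfold Ex
  rw [← Finset.sum_mul, sum_wt, one_mul]

lemma Ex_add (p : I → ℝ) (f g : (I → Bool) → ℝ) :
    Ex p (fun x => f x + g x) = Ex p f + Ex p g := by
  unfold Ex
  rw [← Finset.sum_add_distrib]
  exact Finset.sum_congr rfl fun x _ => by ring

lemma Ex_sub (p : I → ℝ) (f g : (I → Bool) → ℝ) :
    Ex p (fun x => f x - g x) = Ex p f - Ex p g := by
  unfold Ex
  rw [← Finset.sum_sub_distrib]
  exact Finset.sum_congr rfl fun x _ => by ring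

lemma Ex_const_mul (p : I → ℝ) (c : ℝ) (f : (I → Bool) → ℝ) :
    Ex p (fun x => c * f x) = c * Ex p f := by
  unfold Ex
  rw [Finset.mul_sum]
  exact Finset.sum_congr rfl fun x _ => by ring

lemma Ex_sum {J : Type*} (p : I → ℝ) (s : Finset J) (f : J → (I → Bool) → ℝ) :
    Ex p (fun x => ∑ j ∈ s, f j x) = ∑ j ∈ s, Ex p (f j) := by
  unfold Ex
  rw [Finset.sum_comm]
  refine Finset.sum_congr rfl fun x _ => ?_
  rw [Finset.mul_sum]

lemma Ex_mono {p : I → ℝ} (h0 : ∀ i, 0 ≤ p i) (h1 : ∀ i, p i ≤ 1) {f g : (I → Bool) → ℝ}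
    (h : ∀ x, f x ≤ g x) : Ex p f ≤ Ex p g :=
  Finset.sum_le_sum fun x _ => mul_le_mul_of_nonneg_left (h x) (wt_nonneg h0 h1 x)

lemma Ex_nonneg {p : I → ℝ} (h0 : ∀ i, 0 ≤ p i) (h1 : ∀ i, p i ≤ 1) {f : (I → Bool) → ℝ}
    (h : ∀ x, 0 ≤ f x) : 0 ≤ Ex p f :=
  Finset.sum_nonneg fun x _ => mul_nonneg (wt_nonneg h0 h1 x) (h x)

lemma abs_Ex_le {p : I → ℝ} (h0 : ∀ i, 0 ≤ p i) (h1 : ∀ i, p i ≤ 1) (f : (I → Bool) → ℝ) :
    |Ex p f| ≤ Ex p (fun x => |f x|) := by
  unfold Ex
  refine (Finset.abs_sum_le_sum_abs _ _).trans (le_of_eq ?_)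
  refine Finset.sum_congr rfl fun x _ => ?_
  rw [abs_mul, abs_of_nonneg (wt_nonneg h0 h1 x)]

/-- expectation on two independent copies -/
def Ex2 (p : I → ℝ) (F : (I → Bool) → (I → Bool) → ℝ) : ℝ :=
  ∑ z : (I → Bool) × (I → Bool), wt p z.1 * wt p z.2 * F z.1 z.2

lemma Ex2_prod (p : I → ℝ) (f g : (I → Bool) → ℝ) :
    Ex2 p (fun x y => f x * g y) = Ex p f * Ex p g := by
  unfold Ex2 Ex
  rw [Fintype.sum_prod_type, Finset.sum_mul_sum]
  exact Finset.sum_congr rfl fun x _ => Finset.sum_congr rfl fun y _ => by ring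

lemma Ex2_left (p : I → ℝ) (f : (I → Bool) → ℝ) : Ex2 p (fun x _ => f x) = Ex p f := by
  have h := Ex2_prod p f (fun _ => 1)
  rw [Ex_const] at h
  simpa using h

lemma Ex2_mono {p : I → ℝ} (h0 : ∀ i, 0 ≤ p i) (h1 : ∀ i, p i ≤ 1)
    {F G : (I → Bool) → (I → Bool) → ℝ} (h : ∀ x y, F x y ≤ G x y) : Ex2 p F ≤ Ex2 p G :=
  Finset.sum_le_sum fun z _ => mul_le_mul_of_nonneg_left (h z.1 z.2)
    (mul_nonneg (wt_nonneg h0 h1 _) (wt_nonneg h0 h1 _))

lemma Ex2_sub (p : I → ℝ) (F G : (I → Bool) → (I → Bool) → ℝ) :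
    Ex2 p (fun x y => F x y - G x y) = Ex2 p F - Ex2 p G := by
  unfold Ex2
  rw [← Finset.sum_sub_distrib]
  exact Finset.sum_congr rfl fun x _ => by ring

lemma Ex2_add (p : I → ℝ) (F G : (I → Bool) → (I → Bool) → ℝ) :
    Ex2 p (fun x y => F x y + G x y) = Ex2 p F + Ex2 p G := by
  unfold Ex2
  rw [← Finset.sum_add_distrib]
  exact Finset.sum_congr rfl fun x _ => by ring

lemma Ex2_sum {J : Type*} (p : I → ℝ) (s : Finset J)
    (F : J → (I → Bool) → (I → Bool) → ℝ) :
    Ex2 p (fun x y => ∑ j ∈ s, F j x y) = ∑ j ∈ s, Ex2 p (F j) := by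
  unfold Ex2
  rw [Finset.sum_comm]
  refine Finset.sum_congr rfl fun x _ => ?_
  rw [Finset.mul_sum]

lemma abs_Ex2_le {p : I → ℝ} (h0 : ∀ i, 0 ≤ p i) (h1 : ∀ i, p i ≤ 1)
    (F : (I → Bool) → (I → Bool) → ℝ) : |Ex2 p F| ≤ Ex2 p (fun x y => |F x y|) := by
  unfold Ex2
  refine (Finset.abs_sum_le_sum_abs _ _).trans (le_of_eq ?_)
  refine Finset.sum_congr rfl fun x _ => ?_
  rw [abs_mul, abs_of_nonneg (mul_nonneg (wt_nonneg h0 h1 _) (wt_nonneg h0 h1 _))]

/-- first output of the swap -/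
def mix (S : (I → Bool) → Finset I) (x y : I → Bool) : I → Bool :=
  fun i => if i ∈ S x then x i else y i

/-- second output of the swap -/
def mix' (S : (I → Bool) → Finset I) (x y : I → Bool) : I → Bool :=
  fun i => if i ∈ S x then y i else x i

/-- stopping sets: S x is determined by x on S x -/
def Stop (S : (I → Bool) → Finset I) : Prop :=
  ∀ x y : I → Bool, (∀ i ∈ S x, y i = x i) → S y = S x

lemma Stop.mix {S : (I → Bool) → Finset I} (hS : Stop S) (x y : I → Bool) :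
    S (mix S x y) = S x :=
  hS x _ fun i hi => by simp [VuB.mix, hi]

lemma wt_mix (p : I → ℝ) (S : (I → Bool) → Finset I) (x y : I → Bool) :
    wt p (mix S x y) * wt p (mix' S x y) = wt p x * wt p y := by
  unfold wt
  rw [← Finset.prod_mul_distrib, ← Finset.prod_mul_distrib]
  refine Finset.prod_congr rfl fun i _ => ?_
  unfold mix mix'
  by_cases hi : i ∈ S x
  · simp [hi]
  · simp [hi, mul_comm]

/-- the swap lemma -/
lemma Ex2_mix (p : I → ℝ) {S : (I → Bool) → Finset I} (hS : Stop S)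
    (F : (I → Bool) → (I → Bool) → ℝ) :
    Ex2 p (fun x y => F (mix S x y) (mix' S x y)) = Ex2 p F := by
  have hinv : Function.Involutive
      (fun z : (I → Bool) × (I → Bool) => (mix S z.1 z.2, mix' S z.1 z.2)) := by
    rintro ⟨x, y⟩
    have h := hS.mix x y
    refine Prod.ext ?_ ?_
    · funext i
      show (if i ∈ S (mix S x y) then mix S x y i else mix' S x y i) = x i
      rw [h]
      by_cases hi : i ∈ S x <;> simp [mix, mix', hi]
    · funext i
      show (if i ∈ S (mix S x y) then mix' S x y i else mix S x y i) = y i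
      rw [h]
      by_cases hi : i ∈ S x <;> simp [mix, mix', hi]
  unfold Ex2
  rw [← Equiv.sum_comp (hinv.toPerm _)
    (fun z : (I → Bool) × (I → Bool) => wt p z.1 * wt p z.2 * F z.1 z.2)]
  refine Finset.sum_congr rfl fun z _ => ?_
  show _ = wt p (mix S z.1 z.2) * wt p (mix' S z.1 z.2) * F (mix S z.1 z.2) (mix' S z.1 z.2)
  rw [wt_mix]

/-- independence -/
lemma Ex_mul_of_indep (p : I → ℝ) (S : Finset I) {f g : (I → Bool) → ℝ}
    (hf : ∀ x y : I → Bool, (∀ i ∈ S, y i = x i) → f y = f x)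
    (hg : ∀ x y : I → Bool, (∀ i, i ∉ S → y i = x i) → g y = g x) :
    Ex p (fun x => f x * g x) = Ex p f * Ex p g := by
  have hS : Stop (fun _ : I → Bool => S) := fun _ _ _ => rfl
  have h1 := Ex2_mix p hS (fun x _ => f x * g x)
  rw [Ex2_left] at h1
  rw [← h1, ← Ex2_prod]
  congr 1
  funext x y
  rw [hf x (mix (fun _ => S) x y) (fun i hi => by simp [mix, hi]),
    hg y (mix (fun _ => S) x y) (fun i hi => by simp [mix, hi])]

/-- expectation of a single coin -/
lemma Ex_coin (p : I → ℝ) (i : I) : Ex p (fun x => if x i then 1 else 0) = p i := by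
  unfold Ex wt
  have h := Finset.prod_univ_sum (t := fun _ : I => (univ : Finset Bool))
    (f := fun j b => (if b then p j else 1 - p j) * (if j = i then (if b then 1 else 0) else 1))
  rw [Fintype.piFinset_univ] at h
  have h2 : ∀ x : I → Bool, (∏ j, ((if x j then p j else 1 - p j) *
      (if j = i then (if x j then (1 : ℝ) else 0) else 1))) =
      (∏ j, if x j then p j else 1 - p j) * (if x i then 1 else 0) := by
    intro x
    rw [Finset.prod_mul_distrib]
    congr 1
    rw [Finset.prod_ite_eq' univ i (fun j => if x j then (1 : ℝ) else 0)]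
    simp
  rw [← Finset.sum_congr rfl fun x _ => h2 x, ← h]
  rw [← Finset.prod_erase_mul univ _ (Finset.mem_univ i)]
  rw [Finset.prod_eq_one]
  · simp
  · intro j hj
    have : j ≠ i := (Finset.mem_erase.1 hj).1
    simp [this]

/-- a coin times an independent event -/
lemma Ex_coin_mul (p : I → ℝ) (i : I) {g : (I → Bool) → ℝ}
    (hg : ∀ x y : I → Bool, (∀ j, j ≠ i → y j = x j) → g y = g x) :
    Ex p (fun x => (if x i then 1 else 0) * g x) = p i * Ex p g := by
  rw [← Ex_coin p i]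
  refine Ex_mul_of_indep p {i} ?_ ?_
  · intro x y h
    rw [h i (Finset.mem_singleton_self i)]
  · intro x y h
    exact hg x y fun j hj => h j (by simpa using hj)

end

end VuB
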